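import Mathlib

set_option autoImplicit false
set_option linter.unusedSectionVars false

namespace Pool.Agent.Results.MP_ecbb05_mp.FigureEightAtom

open Set Filter Topology Real

/-- A finite metric graph: vertices `V`, edges `E`, the edge `e` is the interval `[0, len e]`
whose end `0` is glued to `src e` and whose end `len e` is glued to `tgt e`. -/
structure MetricGraph (V E : Type) where
  src : E → V
  tgt : E → V
  len : E → ℝ
  len_pos : ∀ e, 0 < len e

namespace MetricGraph

variable {V E : Type} [Fintype V] [Fintype E] [DecidableEq V] (Γ : MetricGraph V E)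

/-- the degree of a vertex (a loop counts twice) -/
def degree (v : V) : ℕ :=
  (Finset.univ.filter fun e => Γ.src e = v).card + (Finset.univ.filter fun e => Γ.tgt e = v).card

/-- two vertices joined by an edge -/
def Adj (u v : V) : Prop := ∃ e, (Γ.src e = u ∧ Γ.tgt e = v) ∨ (Γ.src e = v ∧ Γ.tgt e = u)

/-- connected, and every vertex is a boundary vertex (degree one) or has degree at least three -/
def IsStandard : Prop :=
  (∀ u v, Relation.ReflTransGen Γ.Adj u v) ∧ ∀ v, Γ.degree v = 1 ∨ 3 ≤ Γ.degree v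

/-- derivative of `f` along the edge `e` at the point `x` of `[0, len e]` (one-sided at the ends) -/
noncomputable def slope (f : E → ℝ → ℝ) (e : E) (x : ℝ) : ℝ :=
  derivWithin (f e) (Icc 0 (Γ.len e)) x

/-- `f` is an eigenfunction of `-d²/dx²` with Neumann-Kirchhoff conditions and eigenvalue `k²` -/
structure IsEigenfunction (k : ℝ) (f : E → ℝ → ℝ) : Prop where
  ode : ∀ e, ∀ x ∈ Icc 0 (Γ.len e),
    HasDerivWithinAt (f e) (Γ.slope f e x) (Icc 0 (Γ.len e)) x ∧
    HasDerivWithinAt (Γ.slope f e) (-(k ^ 2 * f e x)) (Icc 0 (Γ.len e)) x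
  continuity : ∃ c : V → ℝ, ∀ e, f e 0 = c (Γ.src e) ∧ f e (Γ.len e) = c (Γ.tgt e)
  kirchhoff : ∀ v, (∑ e, if Γ.src e = v then Γ.slope f e 0 else 0) +
    (∑ e, if Γ.tgt e = v then -Γ.slope f e (Γ.len e) else 0) = 0
  nonzero : ∃ e, ∃ x ∈ Icc 0 (Γ.len e), f e x ≠ 0

/-- generic eigenfunctions: the eigenvalue is simple, `f` vanishes at no vertex and no outgoing
derivative at an interior vertex vanishes -/
structure IsGeneric (k : ℝ) (f : E → ℝ → ℝ) : Prop extends Γ.IsEigenfunction k f where
  simple : ∀ g, Γ.IsEigenfunction k g → ∃ c : ℝ, ∀ e, ∀ x ∈ Icc 0 (Γ.len e), g e x = c * f e x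
  value : ∀ e, f e 0 ≠ 0 ∧ f e (Γ.len e) ≠ 0
  slope_src : ∀ e, Γ.degree (Γ.src e) ≠ 1 → Γ.slope f e 0 ≠ 0
  slope_tgt : ∀ e, Γ.degree (Γ.tgt e) ≠ 1 → Γ.slope f e (Γ.len e) ≠ 0

/-- the wave numbers `k > 0` of the generic eigenfunctions (each is simple, so that they are in
bijection with the generic indices `n`) -/
def generic : Set ℝ := {k | 0 < k ∧ ∃ f, Γ.IsGeneric k f}

/-- The wavelength capacity at `v`: `k / π` times the total length of the star around `v` cut out
by the first critical points of `f` met along the edge ends issuing from `v`. -/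
noncomputable def capacity (v : V) (k : ℝ) (f : E → ℝ → ℝ) : ℝ :=
  k / π * ∑ e, ((if Γ.src e = v then sInf {x | 0 < x ∧ x < Γ.len e ∧ Γ.slope f e x = 0} else 0) +
    (if Γ.tgt e = v then sInf {x | 0 < x ∧ x < Γ.len e ∧ Γ.slope f e (Γ.len e - x) = 0} else 0))

/-- the generic wave numbers whose eigenfunction has capacity at `v` in the set `B` -/
def capacityIn (v : V) (B : Set ℝ) : Set ℝ :=
  {k | 0 < k ∧ ∃ f, Γ.IsGeneric k f ∧ Γ.capacity v k f ∈ B}

/-- the set `A` of generic wave numbers has relative density `d` in the set of all generic wave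
numbers -/
def HasDensity (A : Set ℝ) (d : ℝ) : Prop :=
  Tendsto (fun K : ℝ => ((A ∩ Γ.generic ∩ Iic K).ncard : ℝ) / ((Γ.generic ∩ Iic K).ncard : ℝ))
    atTop (𝓝 d)

end MetricGraph

/-- the figure-eight graph: one vertex and two loops -/
def figureEight (l : Fin 2 → ℝ) (hl : ∀ e, 0 < l e) : MetricGraph Unit (Fin 2) where
  src _ := ()
  tgt _ := ()
  len := l
  len_pos := hl

section Edge

/-- solutions of the edge equation -/
lemma edge_solution {k L : ℝ} (hk : 0 < k) {f f' : ℝ → ℝ}
    (h : ∀ x ∈ Icc 0 L, HasDerivWithinAt f (f' x) (Icc 0 L) x ∧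
      HasDerivWithinAt f' (-(k ^ 2 * f x)) (Icc 0 L) x) :
    ∀ x ∈ Icc 0 L, f x = f 0 * cos (k * x) + f' 0 / k * sin (k * x) ∧
      f' x = -(k * f 0) * sin (k * x) + f' 0 * cos (k * x) := by
  have hcos : ∀ x, HasDerivWithinAt (fun x => cos (k * x)) (-(k * sin (k * x))) (Icc 0 L) x := by
    intro x
    have := ((hasDerivAt_id x).const_mul k).cos.hasDerivWithinAt (s := Icc 0 L)
    refine this.congr_deriv ?_
    simp; ring
  have hsin : ∀ x, HasDerivWithinAt (fun x => sin (k * x)) (k * cos (k * x)) (Icc 0 L) x := by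
    intro x
    have := ((hasDerivAt_id x).const_mul k).sin.hasDerivWithinAt (s := Icc 0 L)
    refine this.congr_deriv ?_
    simp; ring
  have hA : ∀ x ∈ Icc 0 L, f x * cos (k * x) - f' x / k * sin (k * x) = f 0 := by
    intro x hx
    have hd : ∀ y ∈ Icc 0 L, HasDerivWithinAt (fun x => f x * cos (k * x) - f' x / k * sin (k * x)) 0
        (Icc 0 L) y := by
      intro y hy
      have := ((h y hy).1.mul (hcos y)).sub (((h y hy).2.div_const k).mul (hsin y))
      refine this.congr_deriv ?_
      field_simp; ring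
    have := constant_of_derivWithin_zero (fun y hy => (hd y hy).differentiableWithinAt)
      (fun y hy => by
        rcases eq_or_lt_of_le (hx.1.trans hx.2) with h0 | h0
        · exact absurd hy.2 (by rw [← h0]; exact not_lt.mpr hy.1)
        · exact (hd y (Ico_subset_Icc_self hy)).derivWithin (uniqueDiffOn_Icc h0 y (Ico_subset_Icc_self hy))) x hx
    simpa using this
  have hB : ∀ x ∈ Icc 0 L, f x * sin (k * x) + f' x / k * cos (k * x) = f' 0 / k := by
    intro x hx
    have hd : ∀ y ∈ Icc 0 L, HasDerivWithinAt (fun x => f x * sin (k * x) + f' x / k * cos (k * x)) 0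
        (Icc 0 L) y := by
      intro y hy
      have := ((h y hy).1.mul (hsin y)).add (((h y hy).2.div_const k).mul (hcos y))
      refine this.congr_deriv ?_
      field_simp; ring
    have := constant_of_derivWithin_zero (fun y hy => (hd y hy).differentiableWithinAt)
      (fun y hy => by
        rcases eq_or_lt_of_le (hx.1.trans hx.2) with h0 | h0
        · exact absurd hy.2 (by rw [← h0]; exact not_lt.mpr hy.1)
        · exact (hd y (Ico_subset_Icc_self hy)).derivWithin (uniqueDiffOn_Icc h0 y (Ico_subset_Icc_self hy))) x hx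
    simpa using this
  intro x hx
  have h1 := hA x hx
  have h2 := hB x hx
  have h3 := sin_sq_add_cos_sq (k * x)
  constructor
  · linear_combination cos (k * x) * h1 + sin (k * x) * h2 - f x * h3
  · have h4 : f' 0 = k * (f' 0 / k) := by field_simp
    have h5 : f' x = k * (f' x / k) := by field_simp
    rw [h4, h5, ← h1, ← h2]
    linear_combination (- k * (f' x / k)) * h3

end Edge

section General

variable {V E : Type} [Fintype V] [Fintype E] [DecidableEq V] (Γ : MetricGraph V E)

lemma slope_eq {F F' : E → ℝ → ℝ} (h1 : ∀ e x, HasDerivAt (F e) (F' e x) x) (e : E) {x : ℝ}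
    (hx : x ∈ Icc 0 (Γ.len e)) : Γ.slope F e x = F' e x :=
  (h1 e x).hasDerivWithinAt.derivWithin (uniqueDiffOn_Icc (Γ.len_pos e) x hx)

lemma eigenfunction_of_smooth {k : ℝ} {F F' : E → ℝ → ℝ} (h1 : ∀ e x, HasDerivAt (F e) (F' e x) x)
    (h2 : ∀ e x, HasDerivAt (F' e) (-(k ^ 2 * F e x)) x)
    (hc : ∃ c : V → ℝ, ∀ e, F e 0 = c (Γ.src e) ∧ F e (Γ.len e) = c (Γ.tgt e))
    (hK : ∀ v, (∑ e, if Γ.src e = v then F' e 0 else 0) +
      (∑ e, if Γ.tgt e = v then -F' e (Γ.len e) else 0) = 0)
    (hn : ∃ e, ∃ x ∈ Icc 0 (Γ.len e), F e x ≠ 0) : Γ.IsEigenfunction k F where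
  ode e x hx := by
    have h : ∀ {y : ℝ}, y ∈ Icc 0 (Γ.len e) → Γ.slope F e y = F' e y := fun hy => slope_eq Γ h1 e hy
    refine ⟨by rw [h hx]; exact (h1 e x).hasDerivWithinAt, ?_⟩
    exact (h2 e x).hasDerivWithinAt.congr (fun y hy => h hy) (h hx)
  continuity := hc
  kirchhoff v := by
    refine Eq.trans (congrArg₂ (· + ·) ?_ ?_) (hK v)
    · refine Finset.sum_congr rfl fun e _ => ?_
      rw [slope_eq Γ h1 e (left_mem_Icc.mpr (Γ.len_pos e).le)]
    · refine Finset.sum_congr rfl fun e _ => ?_
      rw [slope_eq Γ h1 e (right_mem_Icc.mpr (Γ.len_pos e).le)]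
  nonzero := hn

end General

section Eight

variable {l : Fin 2 → ℝ} {hl : ∀ e, 0 < l e} {k : ℝ} {f : Fin 2 → ℝ → ℝ}

lemma degree_eight (v : Unit) : (figureEight l hl).degree v = 4 := by
  simp [MetricGraph.degree, figureEight]

lemma standard_eight : (figureEight l hl).IsStandard :=
  ⟨fun _ _ => Relation.ReflTransGen.refl, fun v => Or.inr (by rw [degree_eight]; norm_num)⟩

/-- relations satisfied by the eigenfunctions of the figure-eight graph -/
lemma relations (hk : 0 < k) (hf : (figureEight l hl).IsEigenfunction k f) :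
    ∃ a : ℝ, (∀ e, f e 0 = a) ∧
      (∀ e, sin (k * l e / 2) * ((figureEight l hl).slope f e 0 / k * cos (k * l e / 2)
        - a * sin (k * l e / 2)) = 0) ∧
      (sin (k * l 0 / 2) * ((figureEight l hl).slope f 0 0 / k * sin (k * l 0 / 2)
          + a * cos (k * l 0 / 2)) +
        sin (k * l 1 / 2) * ((figureEight l hl).slope f 1 0 / k * sin (k * l 1 / 2)
          + a * cos (k * l 1 / 2)) = 0) := by
  obtain ⟨c, hc⟩ := hf.continuity
  have hsol := fun e => edge_solution hk (hf.ode e) (l e) (right_mem_Icc.mpr (hl e).le)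
  have h0 : ∀ e, f e 0 = c () := fun e => (hc e).1
  have hL : ∀ e, f e (l e) = c () := fun e => (hc e).2
  have hs : ∀ e, sin (k * l e) = 2 * sin (k * l e / 2) * cos (k * l e / 2) := fun e => by
    rw [← sin_two_mul]; congr 1; ring
  have hcs : ∀ e, cos (k * l e) = 1 - 2 * sin (k * l e / 2) ^ 2 := fun e => by
    have : cos (k * l e) = cos (2 * (k * l e / 2)) := by congr 1; ring
    rw [this, cos_two_mul, cos_sq']; ring
  refine ⟨c (), h0, fun e => ?_, ?_⟩
  · have h1 := (hsol e).1
    rw [hL e, h0 e, hs e, hcs e] at h1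
    linear_combination - h1 / 2
  · have hK := hf.kirchhoff ()
    have e1 : ∀ e, (figureEight l hl).slope f e ((figureEight l hl).len e)
        = (figureEight l hl).slope f e (l e) := fun e => rfl
    simp only [Fin.sum_univ_two, figureEight, if_true] at hK
    have h1 := (hsol 0).2
    have h2 := (hsol 1).2
    simp only [figureEight] at h1 h2 ⊢
    rw [h1, h2, h0 0, h0 1, hs 0, hs 1, hcs 0, hcs 1] at hK
    have hk' : k ≠ 0 := hk.ne'
    have h3 := sin_sq_add_cos_sq (k * l 0 / 2)
    have h4 := sin_sq_add_cos_sq (k * l 1 / 2)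
    field_simp
    field_simp at hK
    linear_combination hK / 2


lemma hasDerivAt_sin_mul (k x : ℝ) : HasDerivAt (fun x => sin (k * x)) (k * cos (k * x)) x := by
  have := ((hasDerivAt_id x).const_mul k).sin
  refine this.congr_deriv ?_
  simp; ring

lemma hasDerivAt_cos_mul (k x : ℝ) : HasDerivAt (fun x => k * cos (k * x)) (-(k ^ 2 * sin (k * x))) x := by
  have := ((hasDerivAt_id x).const_mul k).cos.const_mul k
  refine this.congr_deriv ?_
  simp; ring

/-- the eigenfunction supported on one loop -/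
lemma loop_eigenfunction (hk : 0 < k) (e₀ : Fin 2) (h : sin (k * l e₀ / 2) = 0) :
    (figureEight l hl).IsEigenfunction k (fun e x => if e = e₀ then sin (k * x) else 0) := by
  have hs : sin (k * l e₀) = 0 := by
    have : sin (k * l e₀) = 2 * sin (k * l e₀ / 2) * cos (k * l e₀ / 2) := by
      rw [← sin_two_mul]; congr 1; ring
    rw [this, h]; ring
  have hc : cos (k * l e₀) = 1 := by
    have : cos (k * l e₀) = cos (2 * (k * l e₀ / 2)) := by congr 1; ring
    rw [this, cos_two_mul, cos_sq', h]; ring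
  refine eigenfunction_of_smooth _ (F' := fun e x => if e = e₀ then k * cos (k * x) else 0) ?_ ?_ ?_ ?_ ?_
  · intro e x
    by_cases he : e = e₀
    · simpa [he] using hasDerivAt_sin_mul k x
    · simpa [he] using hasDerivAt_const x (0 : ℝ)
  · intro e x
    by_cases he : e = e₀
    · simpa [he] using hasDerivAt_cos_mul k x
    · simpa [he] using hasDerivAt_const x (0 : ℝ)
  · refine ⟨fun _ => 0, fun e => ⟨by simp, ?_⟩⟩
    by_cases he : e = e₀
    · subst he; simpa [figureEight] using hs
    · simp [he]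
  · intro v
    rw [← Finset.sum_add_distrib]
    apply Finset.sum_eq_zero
    intro e _
    by_cases he : e = e₀
    · subst he; simp [figureEight, hc]
    · simp [he]
  · refine ⟨e₀, min (l e₀) (π / (2 * k)), ⟨le_min (hl e₀).le (by positivity), min_le_left _ _⟩, ?_⟩
    simp only [if_true]
    apply ne_of_gt
    apply sin_pos_of_pos_of_lt_pi
    · exact mul_pos hk (lt_min (hl e₀) (by positivity))
    · calc k * min (l e₀) (π / (2 * k)) ≤ k * (π / (2 * k)) := by gcongr; exact min_le_right _ _
        _ = π / 2 := by field_simp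
        _ < π := by linarith [pi_pos]

/-- the shape of the generic eigenfunctions -/
lemma generic_shape (hk : 0 < k) (hf : (figureEight l hl).IsGeneric k f) :
    ∃ a : ℝ, a ≠ 0 ∧ (∀ e, sin (k * l e / 2) ≠ 0) ∧ (∀ e, cos (k * l e / 2) ≠ 0) ∧
      sin (k * l 0 / 2 + k * l 1 / 2) = 0 ∧
      ∀ e, ∀ x ∈ Icc 0 (l e), (figureEight l hl).slope f e x =
        k * a / cos (k * l e / 2) * sin (k * l e / 2 - k * x) := by
  obtain ⟨a, h0, h1, h2⟩ := relations hk hf.toIsEigenfunction
  have ha : a ≠ 0 := by rw [← h0 0]; exact (hf.value 0).1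
  have hs : ∀ e, sin (k * l e / 2) ≠ 0 := by
    intro e he
    obtain ⟨c, hc⟩ := hf.simple _ (loop_eigenfunction hk e he)
    have hc0 : c = 0 := by
      have := hc e 0 (left_mem_Icc.mpr (hl e).le)
      rw [h0 e] at this
      simp only [if_true, mul_zero, sin_zero] at this
      rcases mul_eq_zero.mp this.symm with h | h
      · exact h
      · exact absurd h ha
    obtain ⟨e', x, hx, hne⟩ := (loop_eigenfunction (hl := hl) hk e he).nonzero
    apply hne
    rw [hc e' x hx, hc0, zero_mul]
  have h1' : ∀ e, (figureEight l hl).slope f e 0 / k * cos (k * l e / 2) = a * sin (k * l e / 2) := by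
    intro e
    rcases mul_eq_zero.mp (h1 e) with h | h
    · exact absurd h (hs e)
    · linarith
  have hc : ∀ e, cos (k * l e / 2) ≠ 0 := by
    intro e he
    have := h1' e
    rw [he, mul_zero] at this
    exact mul_ne_zero ha (hs e) this.symm
  have hb : ∀ e, (figureEight l hl).slope f e 0 = k * a * sin (k * l e / 2) / cos (k * l e / 2) := by
    intro e
    have := h1' e
    have hk' := hk.ne'
    have hce := hc e
    field_simp at this ⊢
    linarith
  refine ⟨a, ha, hs, hc, ?_, ?_⟩
  · rw [hb 0, hb 1] at h2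
    have hk' := hk.ne'
    have hc0 := hc 0
    have hc1 := hc 1
    have h3 := sin_sq_add_cos_sq (k * l 0 / 2)
    have h4 := sin_sq_add_cos_sq (k * l 1 / 2)
    rw [sin_add]
    set s0 := sin (k * l 0 / 2)
    set c0 := cos (k * l 0 / 2)
    set s1 := sin (k * l 1 / 2)
    set c1 := cos (k * l 1 / 2)
    have e0 : s0 * (k * a * s0 / c0 / k * s0 + a * c0) = a * s0 / c0 := by
      field_simp
      rw [h3, mul_one]
    have e1 : s1 * (k * a * s1 / c1 / k * s1 + a * c1) = a * s1 / c1 := by
      field_simp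
      rw [h4, mul_one]
    rw [e0, e1] at h2
    have h5 : a * (s0 * c1 + c0 * s1) = 0 := by
      field_simp at h2
      linear_combination h2
    rcases mul_eq_zero.mp h5 with h | h
    · exact absurd h ha
    · exact h
  · intro e x hx
    have := (edge_solution hk (hf.ode e) x hx).2
    rw [this, hb e, h0 e, sin_sub]
    have hce := hc e
    field_simp
    ring

/-- the smallest positive number congruent to `φ` modulo `π` -/
lemma isLeast_crit {φ θ : ℝ} {n : ℤ} (hk : 0 < k) {L : ℝ} (hφ : φ = k * L / 2) (hθ0 : 0 < θ)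
    (hθ1 : θ < π) (hn : φ = θ + n * π) (hL : 0 < L) :
    IsLeast {x | 0 < x ∧ x < L ∧ sin (φ - k * x) = 0} (θ / k) := by
  have hn0 : (0 : ℤ) ≤ n := by
    have h1 : 0 < φ := by rw [hφ]; positivity
    have h2 : (-1 : ℝ) < n := by
      by_contra h
      push Not at h
      nlinarith [pi_pos]
    have h3 : (-1 : ℤ) < n := by exact_mod_cast h2
    omega
  have hn0' : (0 : ℝ) ≤ n := by exact_mod_cast hn0
  constructor
  · refine ⟨by positivity, ?_, ?_⟩
    · rw [div_lt_iff₀ hk]
      nlinarith [pi_pos, mul_pos hk hL]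
    · have : φ - k * (θ / k) = n * π := by field_simp; rw [hn]; ring
      rw [this]
      exact sin_int_mul_pi n
  · rintro x ⟨hx0, hxL, hx⟩
    obtain ⟨m, hm⟩ := sin_eq_zero_iff.mp hx
    rw [div_le_iff₀ hk]
    have h1 : x * k - θ = (n - m) * π := by rw [hn] at hm; linarith
    have h2 : (-1 : ℝ) < ((n - m : ℤ) : ℝ) := by
      push_cast
      by_contra h
      push Not at h
      have : x * k - θ ≤ -π := by rw [h1]; nlinarith [pi_pos]
      nlinarith [mul_pos hx0 hk]
    have h3 : (-1 : ℤ) < n - m := by exact_mod_cast h2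
    have h4 : (0 : ℤ) ≤ n - m := by omega
    have h5 : (0 : ℝ) ≤ n - m := by exact_mod_cast h4
    nlinarith [pi_pos, mul_nonneg h5 pi_pos.le]

lemma exists_theta {φ : ℝ} (h : sin φ ≠ 0) : ∃ (θ : ℝ) (n : ℤ), 0 < θ ∧ θ < π ∧ φ = θ + n * π := by
  refine ⟨φ - ⌊φ / π⌋ * π, ⌊φ / π⌋, ?_, ?_, by ring⟩
  · have h1 : (⌊φ / π⌋ : ℝ) * π ≤ φ := by
      have := Int.floor_le (φ / π)
      rwa [le_div_iff₀ pi_pos] at this
    rcases eq_or_lt_of_le h1 with h2 | h2
    · exfalso; apply h; rw [← h2]; exact sin_int_mul_pi _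
    · linarith
  · have := Int.lt_floor_add_one (φ / π)
    rw [div_lt_iff₀ pi_pos] at this
    linarith

/-- **every** generic eigenfunction of a figure-eight graph has wavelength capacity `2` -/
theorem capacity_eq_two (hk : 0 < k) (hf : (figureEight l hl).IsGeneric k f) :
    (figureEight l hl).capacity () k f = 2 := by
  obtain ⟨a, ha, hs, hc, hsum, hslope⟩ := generic_shape hk hf
  choose θ n hθ0 hθ1 hθ using fun e => exists_theta (hs e)
  have hset1 : ∀ e, {x | 0 < x ∧ x < l e ∧ (figureEight l hl).slope f e x = 0} =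
      {x | 0 < x ∧ x < l e ∧ sin (k * l e / 2 - k * x) = 0} := by
    intro e
    ext x
    simp only [mem_ofPred_eq]
    constructor
    · rintro ⟨h1, h2, h3⟩
      rw [hslope e x ⟨h1.le, h2.le⟩] at h3
      refine ⟨h1, h2, ?_⟩
      rcases mul_eq_zero.mp h3 with h | h
      · exact absurd h (div_ne_zero (mul_ne_zero hk.ne' ha) (hc e))
      · exact h
    · rintro ⟨h1, h2, h3⟩
      refine ⟨h1, h2, ?_⟩
      rw [hslope e x ⟨h1.le, h2.le⟩, h3, mul_zero]
  have hset2 : ∀ e, {x | 0 < x ∧ x < l e ∧ (figureEight l hl).slope f e (l e - x) = 0} =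
      {x | 0 < x ∧ x < l e ∧ sin (k * l e / 2 - k * x) = 0} := by
    intro e
    ext x
    simp only [mem_ofPred_eq]
    have hflip : sin (k * l e / 2 - k * (l e - x)) = - sin (k * l e / 2 - k * x) := by
      rw [← sin_neg]; congr 1; ring
    constructor
    · rintro ⟨h1, h2, h3⟩
      rw [hslope e (l e - x) ⟨by linarith, by linarith⟩, hflip] at h3
      refine ⟨h1, h2, ?_⟩
      rcases mul_eq_zero.mp h3 with h | h
      · exact absurd h (div_ne_zero (mul_ne_zero hk.ne' ha) (hc e))
      · linarith
    · rintro ⟨h1, h2, h3⟩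
      refine ⟨h1, h2, ?_⟩
      rw [hslope e (l e - x) ⟨by linarith, by linarith⟩, hflip, h3, neg_zero, mul_zero]
  have hinf : ∀ e, sInf {x | 0 < x ∧ x < l e ∧ sin (k * l e / 2 - k * x) = 0} = θ e / k :=
    fun e => (isLeast_crit hk rfl (hθ0 e) (hθ1 e) (hθ e) (hl e)).csInf_eq
  have hpi : θ 0 + θ 1 = π := by
    obtain ⟨m, hm⟩ := sin_eq_zero_iff.mp hsum
    have h1 : θ 0 + θ 1 = ((m - n 0 - n 1 : ℤ) : ℝ) * π := by
      push_cast
      rw [hθ 0, hθ 1] at hm
      linarith
    have h2 : (0 : ℝ) < ((m - n 0 - n 1 : ℤ) : ℝ) := by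
      by_contra h
      push Not at h
      nlinarith [hθ0 0, hθ0 1, pi_pos]
    have h3 : ((m - n 0 - n 1 : ℤ) : ℝ) < 2 := by
      by_contra h
      push Not at h
      nlinarith [hθ1 0, hθ1 1, pi_pos]
    have h4 : (0 : ℤ) < m - n 0 - n 1 := by exact_mod_cast h2
    have h5 : m - n 0 - n 1 < 2 := by exact_mod_cast h3
    have h6 : m - n 0 - n 1 = 1 := by omega
    rw [h1, h6]; simp
  have hcap : (figureEight l hl).capacity () k f = k / π * ∑ e : Fin 2, (θ e / k + θ e / k) := by
    unfold MetricGraph.capacity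
    congr 1
    refine Finset.sum_congr rfl fun e _ => ?_
    rw [if_pos rfl, if_pos rfl, ← hinf e]
    congr 1
    · exact congrArg sInf (hset1 e)
    · rw [hinf e, ← hinf e]; exact congrArg sInf (hset2 e)
  rw [hcap, Fin.sum_univ_two]
  have : θ 1 = π - θ 0 := by linarith
  rw [this]
  field_simp
  ring

/-- the generic wave numbers of the figure-eight graph are among the `2πm/(l₀+l₁)` -/
lemma generic_subset : (figureEight l hl).generic ⊆
    Set.range (fun m : ℕ => 2 * π * (m : ℝ) / (l 0 + l 1)) := by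
  rintro k ⟨hk, f, hf⟩
  obtain ⟨a, ha, hs, hc, hsum, hslope⟩ := generic_shape hk hf
  obtain ⟨m, hm⟩ := sin_eq_zero_iff.mp hsum
  have h0 := hl 0
  have h1 := hl 1
  have hm0 : (0 : ℝ) < m := by
    by_contra h
    push Not at h
    have : 0 < k * l 0 / 2 + k * l 1 / 2 := by positivity
    nlinarith [pi_pos]
  have hm1 : 0 ≤ m := by exact_mod_cast hm0.le
  obtain ⟨j, rfl⟩ := Int.eq_ofNat_of_zero_le hm1
  refine ⟨j, ?_⟩
  have h2 : l 0 + l 1 ≠ 0 := by positivity
  push_cast at hm
  simp only
  field_simp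
  linarith

/-- the eigenvalue `k = 2π/(l₀+l₁)` is generic if the two lengths differ -/
lemma generic_first (hne : l 0 ≠ l 1) : 2 * π / (l 0 + l 1) ∈ (figureEight l hl).generic := by
  have h0 := hl 0
  have h1 := hl 1
  have hpos : 0 < l 0 + l 1 := by positivity
  set k : ℝ := 2 * π / (l 0 + l 1) with hk
  have hk0 : 0 < k := by positivity
  have hφ : ∀ e, k * l e / 2 = π * (l e / (l 0 + l 1)) := by
    intro e; rw [hk]; field_simp
  have hφ1 : k * l 1 / 2 = π - k * l 0 / 2 := by
    rw [hk]; field_simp; ring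
  have hs : ∀ e, 0 < sin (k * l e / 2) := by
    intro e
    apply sin_pos_of_pos_of_lt_pi
    · have := hl e; positivity
    · rw [hφ e]
      have : l e / (l 0 + l 1) < 1 := by
        rw [div_lt_one hpos]
        fin_cases e
        · simp only [Fin.zero_eta, Fin.isValue]; linarith
        · simp only [Fin.mk_one, Fin.isValue]; linarith
      nlinarith [pi_pos]
  have hc0 : cos (k * l 0 / 2) ≠ 0 := by
    intro h
    obtain ⟨m, hm⟩ := cos_eq_zero_iff.mp h
    rw [hφ 0] at hm
    have h2 : l 0 / (l 0 + l 1) = (2 * m + 1) / 2 := by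
      have : π * (l 0 / (l 0 + l 1)) = π * ((2 * m + 1) / 2) := by rw [hm]; ring
      exact mul_left_cancel₀ pi_ne_zero this
    have h3 : (0 : ℝ) < (2 * m + 1) / 2 := by rw [← h2]; positivity
    have h4 : ((2 * m + 1) / 2 : ℝ) < 1 := by rw [← h2, div_lt_one hpos]; linarith
    have h5 : (0 : ℤ) < 2 * m + 1 := by
      have : (0 : ℝ) < 2 * m + 1 := by linarith
      exact_mod_cast this
    have h6 : 2 * m + 1 < 2 := by
      have : (2 * m + 1 : ℝ) < 2 := by linarith
      exact_mod_cast this
    have h7 : m = 0 := by omega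
    rw [h7] at h2
    apply hne
    field_simp at h2
    push_cast at h2
    linarith
  have hc1 : cos (k * l 1 / 2) = - cos (k * l 0 / 2) := by
    rw [hφ1, cos_pi_sub]
  have hs1 : sin (k * l 1 / 2) = sin (k * l 0 / 2) := by
    rw [hφ1, sin_pi_sub]
  have hce : ∀ e, cos (k * l e / 2) ≠ 0 := by
    intro e
    fin_cases e
    · exact hc0
    · change cos (k * l 1 / 2) ≠ 0
      rw [hc1]; exact neg_ne_zero.mpr hc0
  -- the eigenfunction
  set F : Fin 2 → ℝ → ℝ := fun e x => cos (k * x - k * l e / 2) / cos (k * l e / 2) with hF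
  set F' : Fin 2 → ℝ → ℝ := fun e x => -k * sin (k * x - k * l e / 2) / cos (k * l e / 2) with hF'
  have hd1 : ∀ e x, HasDerivAt (F e) (F' e x) x := by
    intro e x
    have := (((hasDerivAt_id x).const_mul k).sub_const (k * l e / 2)).cos.div_const (cos (k * l e / 2))
    refine this.congr_deriv ?_
    simp only [hF', id]
    ring
  have hd2 : ∀ e x, HasDerivAt (F' e) (-(k ^ 2 * F e x)) x := by
    intro e x
    have := ((((hasDerivAt_id x).const_mul k).sub_const (k * l e / 2)).sin.const_mul (-k)).div_const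
      (cos (k * l e / 2))
    refine this.congr_deriv ?_
    simp only [hF, id]
    ring
  have hF0 : ∀ e, F e 0 = 1 := by
    intro e
    simp only [hF, mul_zero, zero_sub, cos_neg]
    exact div_self (hce e)
  have hFL : ∀ e, F e (l e) = 1 := by
    intro e
    simp only [hF]
    rw [show k * l e - k * l e / 2 = k * l e / 2 by ring]
    exact div_self (hce e)
  have hF'0 : ∀ e, F' e 0 = k * sin (k * l e / 2) / cos (k * l e / 2) := by
    intro e
    simp only [hF', mul_zero, zero_sub, sin_neg]
    ring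
  have hF'L : ∀ e, F' e (l e) = -(k * sin (k * l e / 2) / cos (k * l e / 2)) := by
    intro e
    simp only [hF']
    rw [show k * l e - k * l e / 2 = k * l e / 2 by ring]
    ring
  have heig : (figureEight l hl).IsEigenfunction k F := by
    refine eigenfunction_of_smooth _ hd1 hd2 ⟨fun _ => 1, fun e => ⟨hF0 e, hFL e⟩⟩ ?_
      ⟨0, 0, left_mem_Icc.mpr (hl 0).le, by rw [hF0]; norm_num⟩
    intro v
    have key : F' 0 0 + F' 1 0 + (-F' 0 (l 0) + -F' 1 (l 1)) = 0 := by
      rw [hF'0, hF'0, hF'L, hF'L, hs1, hc1]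
      field_simp
      ring
    change (∑ e : Fin 2, if () = v then F' e 0 else 0) + (∑ e : Fin 2, if () = v then -F' e (l e) else 0) = 0
    cases v
    simp only [if_true, Fin.sum_univ_two]
    exact key
  have hslope : ∀ e, ∀ x ∈ Icc 0 (l e), (figureEight l hl).slope F e x = F' e x :=
    fun e x hx => slope_eq (figureEight l hl) hd1 e hx
  have hne' : ∀ e, k * sin (k * l e / 2) / cos (k * l e / 2) ≠ 0 := fun e =>
    div_ne_zero (mul_ne_zero hk0.ne' (hs e).ne') (hce e)
  refine ⟨hk0, F, heig, ?_, ?_, ?_, ?_⟩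
  · intro g hg
    obtain ⟨a, g0, g1, g2⟩ := relations hk0 hg
    refine ⟨a, fun e x hx => ?_⟩
    have hb : (figureEight l hl).slope g e 0 / k * cos (k * l e / 2) = a * sin (k * l e / 2) := by
      rcases mul_eq_zero.mp (g1 e) with h | h
      · exact absurd h (hs e).ne'
      · linarith
    have hb' : (figureEight l hl).slope g e 0 / k = a * sin (k * l e / 2) / cos (k * l e / 2) := by
      rw [eq_div_iff (hce e)]; exact hb
    rw [(edge_solution hk0 (hg.ode e) x hx).1, hb', g0 e]
    simp only [hF]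
    rw [cos_sub]
    have := hce e
    field_simp
  · intro e
    exact ⟨by rw [hF0]; norm_num, by rw [show F e ((figureEight l hl).len e) = 1 from hFL e]; norm_num⟩
  · intro e _
    rw [hslope e 0 (left_mem_Icc.mpr (hl e).le), hF'0]
    exact hne' e
  · intro e _
    rw [show (figureEight l hl).slope F e ((figureEight l hl).len e) = F' e (l e) from
      hslope e (l e) (right_mem_Icc.mpr (hl e).le), hF'L]
    exact neg_ne_zero.mpr (hne' e)

lemma generic_finite (K : ℝ) : ((figureEight l hl).generic ∩ Iic K).Finite := by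
  have h0 := hl 0
  have h1 := hl 1
  have hpos : 0 < l 0 + l 1 := by positivity
  apply ((Set.finite_Iic ⌊K * (l 0 + l 1) / (2 * π)⌋₊).image
    (fun m : ℕ => 2 * π * (m : ℝ) / (l 0 + l 1))).subset
  rintro k ⟨hk, hkK⟩
  obtain ⟨m, rfl⟩ := generic_subset hk
  refine ⟨m, ?_, rfl⟩
  simp only [mem_Iic] at hkK ⊢
  apply Nat.le_floor
  rw [div_le_iff₀ hpos] at hkK
  rw [le_div_iff₀ (by positivity)]
  linarith

/-- for every `ε > 0` all generic eigenfunctions have capacity in `(2 - ε, 2 + ε)` -/
lemma density_eq_one (hne : l 0 ≠ l 1) {ε : ℝ} (hε : 0 < ε) :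
    (figureEight l hl).HasDensity ((figureEight l hl).capacityIn () (Ioo (2 - ε) (2 + ε))) 1 := by
  have hA : (figureEight l hl).capacityIn () (Ioo (2 - ε) (2 + ε)) ∩ (figureEight l hl).generic
      = (figureEight l hl).generic := by
    apply inter_eq_right.mpr
    rintro k ⟨hk, f, hf⟩
    refine ⟨hk, f, hf, ?_⟩
    rw [capacity_eq_two hk hf]
    constructor <;> linarith
  unfold MetricGraph.HasDensity
  rw [hA]
  apply tendsto_const_nhds.congr'
  filter_upwards [eventually_ge_atTop (2 * π / (l 0 + l 1))] with K hK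
  have : ((figureEight l hl).generic ∩ Iic K).Nonempty := ⟨_, generic_first hne, hK⟩
  have h2 : ((figureEight l hl).generic ∩ Iic K).ncard ≠ 0 :=
    ((Set.ncard_pos (generic_finite K)).mpr this).ne'
  rw [div_self (by exact_mod_cast h2)]

end Eight

/-- the lengths `1` and `√2` are rationally independent -/
lemma indep_example : LinearIndependent ℚ (![1, √2] : Fin 2 → ℝ) := by
  rw [LinearIndependent.pair_iff]
  intro s t h
  rcases eq_or_ne t 0 with rfl | ht
  · simp only [Rat.smul_def, zero_smul, add_zero] at h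
    refine ⟨?_, rfl⟩
    simpa using h
  · exfalso
    have h2 : √2 = ((-s / t : ℚ) : ℝ) := by
      simp only [Rat.smul_def, mul_one] at h
      have : (t : ℝ) ≠ 0 := by exact_mod_cast ht
      push_cast
      field_simp
      linarith
    exact irrational_sqrt_two ⟨_, h2.symm⟩

/-- **Disproof of `p^(v) ≡ 0`.** For every figure-eight graph (one vertex `v` of degree four, two
loops) with rationally independent edge lengths, every generic eigenfunction has wavelength
capacity exactly `2` at `v`; hence the capacity distribution has an atom at `2` of mass one: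
the relative density of the generic eigenfunctions with capacity in `(2 - ε, 2 + ε)` is `1` for
every `ε > 0`. Rationally independent lengths exist. -/
theorem result :
    (∀ (l : Fin 2 → ℝ) (hl : ∀ e, 0 < l e), LinearIndependent ℚ l →
      (figureEight l hl).IsStandard ∧ (figureEight l hl).degree () = 4 ∧
      (∀ k f, 0 < k → (figureEight l hl).IsGeneric k f →
        (figureEight l hl).capacity () k f = 2) ∧
      ∀ ε : ℝ, 0 < ε → (figureEight l hl).HasDensity
        ((figureEight l hl).capacityIn () (Ioo (2 - ε) (2 + ε))) 1) ∧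
    ∃ l : Fin 2 → ℝ, (∀ e, 0 < l e) ∧ LinearIndependent ℚ l := by
  constructor
  · intro l hl hind
    refine ⟨standard_eight, degree_eight (), fun k f hk hf => capacity_eq_two hk hf, fun ε hε => ?_⟩
    apply density_eq_one _ hε
    intro h
    have := LinearIndependent.injective hind h
    simp at this
  · refine ⟨![1, √2], ?_, indep_example⟩
    intro e
    fin_cases e
    · simp
    · simp

end Pool.Agent.Results.MP_ecbb05_mp.FigureEightAtom
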